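import Pool.Agent.Helper14.SH.Pu

/-!
PROJECT ALLQ (MP_274814_nt), block E1: magnetic translations.
-/

set_option autoImplicit false

namespace Pool.Agent.Helper14.SH

open Finset Complex Pool.Agent.Helper49.SH

variable {ι : Type} [Fintype ι]

theorem Eb_smul_right (E : ι → ι → ℚ) (c : ℂ) (w w' : ι → ℂ) :
    Eb E w (c • w') = c * Eb E w w' := by
  unfold Eb
  rw [Finset.mul_sum]
  refine Finset.sum_congr rfl fun i _ => ?_
  rw [Finset.mul_sum]
  refine Finset.sum_congr rfl fun j _ => ?_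
  rw [Pi.smul_apply, smul_eq_mul]
  ring

theorem Eb_add_left (E : ι → ι → ℚ) (w1 w2 w' : ι → ℂ) :
    Eb E (w1 + w2) w' = Eb E w1 w' + Eb E w2 w' := by
  unfold Eb
  rw [← Finset.sum_add_distrib]
  refine Finset.sum_congr rfl fun i _ => ?_
  rw [← Finset.sum_add_distrib]
  refine Finset.sum_congr rfl fun j _ => ?_
  rw [Pi.add_apply]
  ring

theorem Eb_add_right (E : ι → ι → ℚ) (w w1 w2 : ι → ℂ) :
    Eb E w (w1 + w2) = Eb E w w1 + Eb E w w2 := by
  unfold Eb
  rw [← Finset.sum_add_distrib]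
  refine Finset.sum_congr rfl fun i _ => ?_
  rw [← Finset.sum_add_distrib]
  refine Finset.sum_congr rfl fun j _ => ?_
  rw [Pi.add_apply]
  ring

theorem Eb_swap {E : ι → ι → ℚ} (hE : ∀ i j, E i j = -E j i) (w w' : ι → ℂ) :
    Eb E w w' = -Eb E w' w := by
  unfold Eb
  rw [Finset.sum_comm, ← Finset.sum_neg_distrib]
  refine Finset.sum_congr rfl fun i _ => ?_
  rw [← Finset.sum_neg_distrib]
  refine Finset.sum_congr rfl fun j _ => ?_
  rw [hE j i]
  push_cast
  ring

/-- `Eb E v` as a continuous linear map -/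
noncomputable def EbC (E : ι → ι → ℚ) (v : ι → ℂ) : (ι → ℂ) →L[ℂ] ℂ :=
  LinearMap.toContinuousLinearMap
    { toFun := fun w => Eb E v w
      map_add' := fun a b => Eb_add_right E v a b
      map_smul' := fun c a => Eb_smul_right E c v a }

theorem EbC_apply (E : ι → ι → ℚ) (v w : ι → ℂ) : EbC E v w = Eb E v w := rfl

/-- a rational value -/
theorem Eb_rv (E : ι → ι → ℚ) (s t : ι → ℚ) :
    Eb E (rv s) (rv t) = ((∑ i, ∑ j, E i j * s i * t j : ℚ) : ℂ) := by
  unfold Eb rv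
  push_cast
  rfl

theorem differentiable_Ut {E : ι → ι → ℚ} {F : (ι → ℂ) → ℂ} (h : Differentiable ℂ F)
    (t : ι → ℚ) : Differentiable ℂ (Ut E t F) := by
  have h1 : Differentiable ℂ (fun w : ι → ℂ => exp (Real.pi * I * Eb E (rv t) w)) := by
    have : Differentiable ℂ (fun w : ι → ℂ => Real.pi * I * EbC E (rv t) w) :=
      (EbC E (rv t)).differentiable.const_mul _
    exact this.cexp
  have h2 : Differentiable ℂ (fun w : ι → ℂ => F (w + rv t)) :=
    h.comp (differentiable_id.add_const _)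
  exact h1.mul h2

theorem fderiv_Ut {E : ι → ι → ℚ} {F : (ι → ℂ) → ℂ} (h : Differentiable ℂ F)
    (t : ι → ℚ) (e w : ι → ℂ) :
    fderiv ℂ (Ut E t F) w e = exp (Real.pi * I * Eb E (rv t) w) *
      (fderiv ℂ F (w + rv t) e + Real.pi * I * Eb E (rv t) e * F (w + rv t)) := by
  have h0 : HasFDerivAt (fun w : ι → ℂ => Real.pi * I * EbC E (rv t) w)
      ((Real.pi * I : ℂ) • EbC E (rv t)) w := (EbC E (rv t)).hasFDerivAt.const_mul _
  have h1 : HasFDerivAt (fun w : ι → ℂ => exp (Real.pi * I * EbC E (rv t) w))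
      (exp (Real.pi * I * EbC E (rv t) w) • ((Real.pi * I : ℂ) • EbC E (rv t))) w := h0.cexp
  have h2 : HasFDerivAt (fun w : ι → ℂ => F (w + rv t)) (fderiv ℂ F (w + rv t)) w := by
    have h3 : HasFDerivAt (fun w : ι → ℂ => w + rv t) (ContinuousLinearMap.id ℂ (ι → ℂ)) w :=
      (hasFDerivAt_id w).add_const _
    have h4 := (h (w + rv t)).hasFDerivAt.comp w h3
    rw [ContinuousLinearMap.comp_id] at h4
    exact h4
  have h5 : HasFDerivAt (Ut E t F) _ w := h1.mul h2
  rw [h5.fderiv]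
  simp only [ContinuousLinearMap.add_apply, ContinuousLinearMap.smul_apply, EbC_apply,
    smul_eq_mul]
  ring

theorem nab_Ut {E : ι → ι → ℚ} {F : (ι → ℂ) → ℂ} (hE : ∀ i j, E i j = -E j i)
    (h : Differentiable ℂ F) (t : ι → ℚ) (e w : ι → ℂ) :
    nab E e (Ut E t F) w = exp (Real.pi * I * Eb E (rv t) w) * nab E e F (w + rv t) := by
  unfold nab
  rw [fderiv_Ut h, Eb_add_right, Eb_swap hE (rv t) e]
  unfold Ut
  ring

/-- common denominator of a rational linear form -/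
theorem exists_den_form (E : ι → ι → ℚ) (t : ι → ℚ) : ∃ D : ℕ, 1 ≤ D ∧
    ∀ l : ι → ℤ, ∃ m : ℤ, (D : ℂ) * Eb E (rv t) (zv l) = m := by
  obtain ⟨D, hD, h⟩ := exists_den (ι := Unit) (ι' := ι) (fun _ j => ∑ i, E i j * t i)
  refine ⟨D, hD, fun l => ?_⟩
  obtain ⟨l', hl'⟩ := h l
  refine ⟨l' (), ?_⟩
  have h1 := congrFun hl' ()
  simp only [zv, Pi.smul_apply, smul_eq_mul, mv] at h1
  rw [h1]
  congr 1
  unfold Eb rv zv
  rw [Finset.sum_comm]
  refine Finset.sum_congr rfl fun j _ => ?_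
  push_cast
  rw [Finset.sum_mul]

theorem AT_Ut {E : ι → ι → ℚ} {N : Submodule ℂ (ι → ℂ)} {F : (ι → ℂ) → ℂ}
    (hE : ∀ i j, E i j = -E j i) (h : AT E N F) (t : ι → ℚ) : AT E N (Ut E t F) where
  diff := differentiable_Ut h.diff t
  hol := by
    intro e he w
    rw [fderiv_Ut h.diff, h.hol e he, Eb_add_right, Eb_swap hE (rv t) e]
    unfold Ut
    ring
  per := by
    obtain ⟨k, hk, hp⟩ := h.per
    obtain ⟨D, hD, hl⟩ := exists_den_form E t
    refine ⟨k * D, Nat.mul_pos hk hD, ?_⟩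
    intro l w
    obtain ⟨m, hm⟩ := hl l
    have h1 : w + ((k * D : ℕ) : ℂ) • zv l + rv t =
        (w + rv t) + (k : ℂ) • zv (fun i => (D : ℤ) * l i) := by
      funext i
      simp only [Pi.add_apply, Pi.smul_apply, smul_eq_mul, zv]
      push_cast
      ring
    have h2 : (zv (fun i => (D : ℤ) * l i) : ι → ℂ) = (D : ℂ) • zv l := by
      funext i
      simp only [Pi.smul_apply, smul_eq_mul, zv]
      push_cast
      ring
    have h3 : Eb E (zv l) (rv t) = -Eb E (rv t) (zv l) := Eb_swap hE _ _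
    show exp (Real.pi * I * Eb E (rv t) (w + ((k * D : ℕ) : ℂ) • zv l)) *
        F (w + ((k * D : ℕ) : ℂ) • zv l + rv t) = _ *
        (exp (Real.pi * I * Eb E (rv t) w) * F (w + rv t))
    rw [h1, hp, h2, Eb_add_right, Eb_smul_right, Eb_smul_left, Eb_add_right, h3]
    have h4 : exp (Real.pi * I * (Eb E (rv t) w + ((k * D : ℕ) : ℂ) * Eb E (rv t) (zv l))) *
        exp (-(Real.pi * I * k * (D * (Eb E (zv l) w + -Eb E (rv t) (zv l))))) =
        exp (-(Real.pi * I * ((k * D : ℕ) : ℂ) * Eb E (zv l) w)) *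
          exp (Real.pi * I * Eb E (rv t) w) := by
      have h5 : Real.pi * I * (Eb E (rv t) w + ((k * D : ℕ) : ℂ) * Eb E (rv t) (zv l)) +
          -(Real.pi * I * k * (D * (Eb E (zv l) w + -Eb E (rv t) (zv l)))) =
          (-(Real.pi * I * ((k * D : ℕ) : ℂ) * Eb E (zv l) w) + Real.pi * I * Eb E (rv t) w) +
            ((k * m : ℤ) : ℂ) * (2 * Real.pi * I) := by
        push_cast
        linear_combination (2 * Real.pi * I * k : ℂ) * hm
      rw [← Complex.exp_add, ← Complex.exp_add, h5, Complex.exp_add _ (_ * (2 * Real.pi * I)),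
        Complex.exp_int_mul_two_pi_mul_I, mul_one]
    linear_combination F (w + rv t) * h4

theorem isAlgebraic_exp_rat (r : ℚ) : IsAlgebraic ℚ (exp (Real.pi * I * (r : ℂ))) := by
  have h1 : exp (Real.pi * I * (r : ℂ)) ^ (2 * r.den) = 1 := by
    rw [← Complex.exp_nat_mul]
    have h2 : ((2 * r.den : ℕ) : ℂ) * (Real.pi * I * (r : ℂ)) =
        (r.num : ℂ) * (2 * Real.pi * I) := by
      have h3 : ((r.den : ℚ) : ℂ) * (r : ℂ) = ((r.num : ℚ) : ℂ) := by
        rw [← Rat.cast_mul, mul_comm, Rat.mul_den_eq_num]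
      push_cast at h3 ⊢
      linear_combination (2 * Real.pi * I : ℂ) * h3
    rw [h2, Complex.exp_int_mul_two_pi_mul_I]
  have h2 : IsAlgebraic ℚ (exp (Real.pi * I * (r : ℂ)) ^ (2 * r.den)) := by
    rw [h1]
    exact isAlgebraic_one
  exact h2.of_pow (Nat.mul_pos two_pos r.den_pos)

theorem AlgT_Ut {E : ι → ι → ℚ} {N : Submodule ℂ (ι → ℂ)} {F : (ι → ℂ) → ℂ}
    (hE : ∀ i j, E i j = -E j i) (h : AlgT E N F) (t : ι → ℚ) : AlgT E N (Ut E t F) where
  toAT := AT_Ut hE h.toAT t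
  val := by
    intro s
    show IsAlgebraic ℚ (exp (Real.pi * I * Eb E (rv t) (rv s)) * F (rv s + rv t))
    rw [Eb_rv]
    refine (isAlgebraic_exp_rat _).mul ?_
    have h1 : (rv s + rv t : ι → ℂ) = rv (s + t) := by
      funext i
      simp [rv]
    rw [h1]
    exact h.val _

end Pool.Agent.Helper14.SH
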