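import Pool.Agent.Helper14.SH.Eu

/-!
PROJECT ALLQ (MP_274814_nt): transport by a rational isomorphism.
-/

set_option autoImplicit false

namespace Pool.Agent.Helper14.SH

open Finset Complex Pool.Agent.Helper49.SH

variable {ι ι' : Type} [Fintype ι] [Fintype ι']

omit [Fintype ι] in
theorem cj_mv (M : ι → ι' → ℚ) (w : ι' → ℂ) : cj (mv M w) = mv M (cj w) := by
  funext i
  simp [cj, mv]

omit [Fintype ι] in
theorem mem_Nc_comap {N : Submodule ℂ (ι → ℂ)} (M : ι → ι' → ℚ) (e : ι' → ℂ) :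
    e ∈ Nc (N.comap (mvL M)) ↔ mv M e ∈ Nc N := by
  show mv M (cj e) ∈ N ↔ cj (mv M e) ∈ N
  rw [cj_mv]

theorem Eb_single [DecidableEq ι] (E : ι → ι → ℚ) (i j : ι) :
    Eb E (Pi.single i 1) (Pi.single j 1) = E i j := by
  unfold Eb
  rw [Finset.sum_eq_single i, Finset.sum_eq_single j]
  · simp
  · intro b _ hb
    simp [Pi.single_eq_of_ne hb]
  · simp
  · intro b _ hb
    simp [Pi.single_eq_of_ne hb]
  · simp

theorem form_ext {E E' : ι → ι → ℚ} (h : ∀ w w', Eb E w w' = Eb E' w w') : E = E' := by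
  classical
  funext i j
  have h1 := h (Pi.single i 1) (Pi.single j 1)
  rw [Eb_single, Eb_single] at h1
  exact_mod_cast h1

theorem pb_pb (E : ι → ι → ℚ) {M : ι → ι' → ℚ} {M' : ι' → ι → ℚ}
    (h1 : ∀ w, mv M (mv M' w) = w) : pb (pb E M) M' = E := by
  apply form_ext
  intro w w'
  rw [Eb_pb, Eb_pb, h1, h1]

omit [Fintype ι'] in
theorem alt_pb {E : ι → ι → ℚ} (hE : ∀ i j, E i j = -E j i) (M : ι → ι' → ℚ) (i' j' : ι') :
    pb E M i' j' = -pb E M j' i' := by
  unfold pb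
  rw [Finset.sum_comm, ← Finset.sum_neg_distrib]
  refine Finset.sum_congr rfl fun i _ => ?_
  rw [← Finset.sum_neg_distrib]
  refine Finset.sum_congr rfl fun j _ => ?_
  rw [hE j i]
  ring

/-- the linear equivalence of a rational isomorphism -/
noncomputable def mvE (M : ι → ι' → ℚ) (M' : ι' → ι → ℚ) (h1 : ∀ w, mv M (mv M' w) = w)
    (h2 : ∀ w, mv M' (mv M w) = w) : (ι' → ℂ) ≃ₗ[ℂ] (ι → ℂ) :=
  { mvL M with
    invFun := mv M'
    left_inv := h2
    right_inv := h1 }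

theorem Pol_pb {E : ι → ι → ℚ} {N : Submodule ℂ (ι → ℂ)} (hP : Pol E N)
    {M : ι → ι' → ℚ} {M' : ι' → ι → ℚ} (h1 : ∀ w, mv M (mv M' w) = w)
    (h2 : ∀ w, mv M' (mv M w) = w) : Pol (pb E M) (N.comap (mvL M)) where
  alt := alt_pb hP.alt M
  iso := by
    intro e he e' he'
    rw [Eb_pb]
    exact hP.iso _ he _ he'
  pos := by
    intro e he h0
    rw [Eb_pb, ← cj_mv]
    refine hP.pos _ he ?_
    intro h3
    apply h0
    rw [← h2 e, h3]
    exact (mvL M').map_zero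
  dim := by
    have h3 : (N.comap (mvL M)) = N.comap (mvE M M' h1 h2 : (ι' → ℂ) →ₗ[ℂ] (ι → ℂ)) := rfl
    have h4 : Module.finrank ℂ (N.comap (mvL M)) = Module.finrank ℂ N := by
      rw [h3, Submodule.comap_equiv_eq_map_symm (mvE M M' h1 h2) N]
      exact LinearEquiv.finrank_map_eq _ _
    have h5 : Fintype.card ι' = Fintype.card ι := by
      have h6 := (mvE M M' h1 h2).finrank_eq
      rwa [Module.finrank_fintype_fun_eq_card, Module.finrank_fintype_fun_eq_card] at h6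
    rw [h4, h5]
    exact hP.dim

theorem Good_pb {E : ι → ι → ℚ} {N : Submodule ℂ (ι → ℂ)} (hG : Good E N)
    {M : ι → ι' → ℚ} {M' : ι' → ι → ℚ} (h1 : ∀ w, mv M (mv M' w) = w) :
    Good (pb E M) (N.comap (mvL M)) := by
  obtain ⟨F, hF, h0⟩ := hG
  refine ⟨_, AlgT_pull hF M, ?_⟩
  intro h3
  apply h0
  funext w
  have h4 := congrFun h3 (mv M' w)
  simp only [h1] at h4
  exact h4

/-- transport by a rational isomorphism -/
theorem E_iso {E : ι → ι → ℚ} {N : Submodule ℂ (ι → ℂ)} (hP : Pol E N) (hG : Good E N)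
    (M : ι → ι' → ℚ) (M' : ι' → ι → ℚ) (h1 : ∀ w, mv M (mv M' w) = w)
    (h2 : ∀ w, mv M' (mv M w) = w) :
    Pol (pb E M) (N.comap (mvL M)) ∧ Good (pb E M) (N.comap (mvL M)) ∧
      ∀ e, e ∈ Valg (pb E M) (N.comap (mvL M)) ↔ mv M e ∈ Valg E N := by
  refine ⟨Pol_pb hP h1 h2, Good_pb hG h1, fun e => ?_⟩
  constructor
  · rintro ⟨he, h⟩
    refine ⟨(mem_Nc_comap M e).mp he, ?_⟩
    intro F hF t
    have h3 := h _ (AlgT_pull hF M) (fun i => ∑ j, M' i j * t j)
    rwa [nab_pull hF.diff, ← mv_rv, h1] at h3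
  · rintro ⟨he, h⟩
    refine ⟨(mem_Nc_comap M e).mpr he, ?_⟩
    intro G hG' t
    have h3 := AlgT_pull hG' M'
    have h4 : (N.comap (mvL M)).comap (mvL M') = N := by
      ext w
      show mv M (mv M' w) ∈ N ↔ w ∈ N
      rw [h1]
    rw [pb_pb E h1, h4] at h3
    have h5 := h _ h3 (fun i => ∑ j, M i j * t j)
    rw [← mv_rv, ← nab_pull h3.diff] at h5
    have h6 : (fun w => (fun w => G (mv M' w)) (mv M w)) = G := by
      funext w
      simp only [h2]
    rwa [h6] at h5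

end Pool.Agent.Helper14.SH
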