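import Pool.Agent.Helper49.SH.Df

/-!
PROJECT ALLQ (MP_274814_nt), block E1: pull back by a rational matrix.
-/

set_option autoImplicit false

namespace Pool.Agent.Helper14.SH

open Finset Complex Pool.Agent.Helper49.SH

variable {ι ι' : Type} [Fintype ι] [Fintype ι']

theorem Eb_pb (E : ι → ι → ℚ) (M : ι → ι' → ℚ) (w w' : ι' → ℂ) :
    Eb (pb E M) w w' = Eb E (mv M w) (mv M w') := by
  unfold Eb pb mv
  push_cast
  have h1 : ∀ i' j', (∑ i, ∑ j, (E i j : ℂ) * (M i i' : ℂ) * (M j j' : ℂ)) * w i' * w' j' =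
      ∑ i, ∑ j, (E i j : ℂ) * ((M i i' : ℂ) * w i') * ((M j j' : ℂ) * w' j') := by
    intro i' j'
    rw [Finset.sum_mul, Finset.sum_mul]
    refine Finset.sum_congr rfl fun i _ => ?_
    rw [Finset.sum_mul, Finset.sum_mul]
    refine Finset.sum_congr rfl fun j _ => ?_
    ring
  have h2 : ∀ i j, (E i j : ℂ) * (∑ i', (M i i' : ℂ) * w i') * (∑ j', (M j j' : ℂ) * w' j') =
      ∑ i', ∑ j', (E i j : ℂ) * ((M i i' : ℂ) * w i') * ((M j j' : ℂ) * w' j') := by
    intro i j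
    rw [mul_assoc, Finset.sum_mul_sum, Finset.mul_sum]
    refine Finset.sum_congr rfl fun i' _ => ?_
    rw [Finset.mul_sum]
    exact Finset.sum_congr rfl fun j' _ => (mul_assoc _ _ _).symm
  simp_rw [h1, h2]
  calc ∑ i', ∑ j', ∑ i, ∑ j, (E i j : ℂ) * ((M i i' : ℂ) * w i') * ((M j j' : ℂ) * w' j')
      = ∑ i', ∑ i, ∑ j', ∑ j, (E i j : ℂ) * ((M i i' : ℂ) * w i') * ((M j j' : ℂ) * w' j') := by
        refine Finset.sum_congr rfl fun i' _ => ?_
        rw [Finset.sum_comm]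
    _ = ∑ i, ∑ i', ∑ j', ∑ j, (E i j : ℂ) * ((M i i' : ℂ) * w i') * ((M j j' : ℂ) * w' j') := by
        rw [Finset.sum_comm]
    _ = ∑ i, ∑ i', ∑ j, ∑ j', (E i j : ℂ) * ((M i i' : ℂ) * w i') * ((M j j' : ℂ) * w' j') := by
        refine Finset.sum_congr rfl fun i _ => Finset.sum_congr rfl fun i' _ => ?_
        rw [Finset.sum_comm]
    _ = ∑ i, ∑ j, ∑ i', ∑ j', (E i j : ℂ) * ((M i i' : ℂ) * w i') * ((M j j' : ℂ) * w' j') := by
        refine Finset.sum_congr rfl fun i _ => ?_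
        rw [Finset.sum_comm]

omit [Fintype ι] in
theorem mv_rv (M : ι → ι' → ℚ) (t : ι' → ℚ) :
    mv M (rv t) = rv (fun i => ∑ j, M i j * t j) := by
  funext i
  simp [mv, rv]

omit [Fintype ι] in
theorem mv_add (M : ι → ι' → ℚ) (a b : ι' → ℂ) : mv M (a + b) = mv M a + mv M b :=
  (mvL M).map_add a b

omit [Fintype ι] in
theorem mv_smul (M : ι → ι' → ℚ) (c : ℂ) (a : ι' → ℂ) : mv M (c • a) = c • mv M a :=
  (mvL M).map_smul c a

/-- continuous version -/
noncomputable def mvC (M : ι → ι' → ℚ) : (ι' → ℂ) →L[ℂ] (ι → ℂ) :=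
  LinearMap.toContinuousLinearMap (mvL M)

omit [Fintype ι] in
theorem mvC_apply (M : ι → ι' → ℚ) (w : ι' → ℂ) : mvC M w = mv M w := rfl

theorem fderiv_pull {F : (ι → ℂ) → ℂ} (h : Differentiable ℂ F) (M : ι → ι' → ℚ)
    (e w : ι' → ℂ) :
    fderiv ℂ (fun w => F (mv M w)) w e = fderiv ℂ F (mv M w) (mv M e) := by
  have h1 : HasFDerivAt (fun w => F (mv M w)) ((fderiv ℂ F (mv M w)).comp (mvC M)) w := by
    have h2 : HasFDerivAt F (fderiv ℂ F (mvC M w)) (mvC M w) := (h _).hasFDerivAt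
    exact h2.comp w (mvC M).hasFDerivAt
  rw [h1.fderiv]
  rfl

theorem nab_pull {E : ι → ι → ℚ} {F : (ι → ℂ) → ℂ} (h : Differentiable ℂ F) (M : ι → ι' → ℚ)
    (e w : ι' → ℂ) :
    nab (pb E M) e (fun w => F (mv M w)) w = nab E (mv M e) F (mv M w) := by
  unfold nab
  rw [fderiv_pull h, Eb_pb]

theorem Eb_smul_left (E : ι → ι → ℚ) (c : ℂ) (w w' : ι → ℂ) :
    Eb E (c • w) w' = c * Eb E w w' := by
  unfold Eb
  rw [Finset.mul_sum]
  refine Finset.sum_congr rfl fun i _ => ?_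
  rw [Finset.mul_sum]
  refine Finset.sum_congr rfl fun j _ => ?_
  rw [Pi.smul_apply, smul_eq_mul]
  ring

/-- a common denominator -/
theorem exists_den (M : ι → ι' → ℚ) : ∃ D : ℕ, 1 ≤ D ∧
    ∀ l : ι' → ℤ, ∃ l' : ι → ℤ, (zv l' : ι → ℂ) = (D : ℂ) • mv M (zv l) := by
  classical
  refine ⟨∏ i, ∏ j, (M i j).den, ?_, ?_⟩
  · exact Nat.one_le_iff_ne_zero.mpr (Finset.prod_ne_zero_iff.mpr fun i _ =>
      Finset.prod_ne_zero_iff.mpr fun j _ => (M i j).den_nz)
  · intro l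
    have hD : ∀ i j, ∃ c : ℤ, ((c : ℤ) : ℚ) = ((∏ i, ∏ j, (M i j).den : ℕ) : ℚ) * M i j := by
      intro i j
      have hd : (M i j).den ∣ ∏ i, ∏ j, (M i j).den :=
        (Finset.dvd_prod_of_mem (fun j => (M i j).den) (Finset.mem_univ j)).trans
          (Finset.dvd_prod_of_mem (fun i => ∏ j, (M i j).den) (Finset.mem_univ i))
      obtain ⟨k, hk⟩ := hd
      refine ⟨k * (M i j).num, ?_⟩
      rw [hk]
      push_cast
      have h3 : ((M i j).den : ℚ) * M i j = (M i j).num := by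
        rw [mul_comm]
        exact Rat.mul_den_eq_num _
      linear_combination (-(k : ℚ)) * h3
    choose c hc using hD
    refine ⟨fun i => ∑ j, c i j * l j, ?_⟩
    funext i
    have hc' : ∀ i j, ((c i j : ℤ) : ℂ) = ((∏ i, ∏ j, (M i j).den : ℕ) : ℂ) * (M i j : ℂ) := by
      intro i j
      have := congrArg (fun x : ℚ => (x : ℂ)) (hc i j)
      push_cast at this ⊢
      exact this
    simp only [zv, Pi.smul_apply, smul_eq_mul, mv]
    rw [Finset.mul_sum]
    push_cast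
    refine Finset.sum_congr rfl fun j _ => ?_
    have := hc' i j
    push_cast at this
    rw [this]
    ring

/-- pull back by any rational matrix -/
theorem AlgT_pull {E : ι → ι → ℚ} {N : Submodule ℂ (ι → ℂ)} {F : (ι → ℂ) → ℂ}
    (h : AlgT E N F) (M : ι → ι' → ℚ) :
    AlgT (pb E M) (N.comap (mvL M)) (fun w => F (mv M w)) where
  diff := h.diff.comp (mvC M).differentiable
  hol := by
    intro e he w
    rw [fderiv_pull h.diff, Eb_pb]
    exact h.hol _ he _
  per := by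
    obtain ⟨k, hk, hp⟩ := h.per
    obtain ⟨D, hD, hl⟩ := exists_den M
    refine ⟨k * D, Nat.mul_pos hk hD, ?_⟩
    intro l w
    obtain ⟨l', hl'⟩ := hl l
    have h1 : mv M (w + ((k * D : ℕ) : ℂ) • zv l) = mv M w + (k : ℂ) • zv l' := by
      rw [mv_add, mv_smul, hl', smul_smul]
      push_cast
      rfl
    show F (mv M (w + ((k * D : ℕ) : ℂ) • zv l)) = _
    rw [h1, hp, hl', Eb_smul_left, Eb_pb]
    congr 2
    push_cast
    ring
  val := by
    intro t
    show IsAlgebraic ℚ (F (mv M (rv t)))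
    rw [mv_rv]
    exact h.val _

/-- the same for `AT` -/
theorem AT_pull {E : ι → ι → ℚ} {N : Submodule ℂ (ι → ℂ)} {F : (ι → ℂ) → ℂ}
    (h : AT E N F) (M : ι → ι' → ℚ) :
    AT (pb E M) (N.comap (mvL M)) (fun w => F (mv M w)) where
  diff := h.diff.comp (mvC M).differentiable
  hol := by
    intro e he w
    rw [fderiv_pull h.diff, Eb_pb]
    exact h.hol _ he _
  per := by
    obtain ⟨k, hk, hp⟩ := h.per
    obtain ⟨D, hD, hl⟩ := exists_den M
    refine ⟨k * D, Nat.mul_pos hk hD, ?_⟩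
    intro l w
    obtain ⟨l', hl'⟩ := hl l
    have h1 : mv M (w + ((k * D : ℕ) : ℂ) • zv l) = mv M w + (k : ℂ) • zv l' := by
      rw [mv_add, mv_smul, hl', smul_smul]
      push_cast
      rfl
    show F (mv M (w + ((k * D : ℕ) : ℂ) • zv l)) = _
    rw [h1, hp, hl', Eb_smul_left, Eb_pb]
    congr 2
    push_cast
    ring

end Pool.Agent.Helper14.SH
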